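import Pool.Agent.MP_d071c2_nt_Proof

/-!
# The Shafarevich dimension of dynamical systems on the projective line

We prove `σ_d^1 = 2 d - 2 = dim M_d^1` for every `d ≥ 2`. The definitions are in
`Pool/Agent/MP_d071c2_nt_Defs.lean` and the proof is in `Pool/Agent/MP_d071c2_nt_Proof.lean`.

Idea of the lower bound. Let `K = ℚ` and `S = {2}`. The maps given by finite continued fractions
`f = a_1 + 1 / (a_2 + 1 / (⋯ + 1 / a_d))` whose partial quotients `a_i = 2 ^ (m_i) z + b_i` have
integral coefficients and a power of two as leading coefficient have naive good reduction at every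
odd prime (the two polynomials of the fraction stay coprime modulo `p`, and the degree does not
drop). By Euclidean division the set of these maps is Zariski dense in the space of all maps of
degree `d` fixing infinity, and every map is conjugate to one fixing infinity. So the classes with
good reduction outside `{2}` are Zariski dense in `M_d^1`.
-/

namespace Pool.Agent.Results.MP_d071c2_nt.ShafDim

/-- The Shafarevich dimension `σ_d^1` is `2 d - 2` for every `d ≥ 2`. -/
theorem result : ∀ d : ℕ, 2 ≤ d → shafarevichDim 1 d = ((2 * d - 2 : ℕ) : WithBot ℕ∞) :=
  main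

/-- In particular the statement of Q2, `σ_d^1 = d + 1` for every `d ≥ 3`, is false. -/
theorem q2_false : ¬ ∀ d : ℕ, 3 ≤ d → shafarevichDim 1 d = ((d + 1 : ℕ) : WithBot ℕ∞) := by
  intro h
  have h1 := h 4 (by norm_num)
  rw [result 4 (by norm_num)] at h1
  have h2 : (2 * 4 - 2 : ℕ) = 4 + 1 := by exact_mod_cast h1
  omega

/-- The classes over a number field `K` with good reduction outside the primes above `2` are
Zariski dense in `M_d^1` (the question of Petsche and Stout). -/
theorem dense (d : ℕ) (hd : 1 ≤ d) (K : Type*) [Field K] [NumberField K] :
    closure (goodSet 1 d K (S2 K)) = Set.univ :=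
  closure_goodSet (by omega)

end Pool.Agent.Results.MP_d071c2_nt.ShafDim
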